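import Pool.Agent.L5helper96.NT.Fin1
import Pool.Agent.L5helper96.NT.Aan

/-!
# The exploration path of critical bond percolation in its natural parametrisation, on long cylinders

Critical bond percolation (`p = 1/2`) on the square lattice rotated by 45 degrees, on the cylinder of
odd circumference `N = 2n+1` and height `M` (we work in the universal cover).  The corners `(x, y)` of
the unit squares (tiles) with `x + y` even are the vertices of the lattice, those with `x + y` odd the
vertices of the dual lattice; in every tile exactly one of the two diagonals is open.  The arcs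
`[kN, kN + 2n]` of the bottom are wired; the exploration path starts between the arcs `[0, 2n]` and
`[N, N + 2n]`, which are of different colours, keeps the cluster of the first one on its left and the
cluster of the second one on its right, and is followed until it reaches the top.

Its natural time is its number of steps.
-/

set_option autoImplicit false

namespace Pool.Agent.Results.MP_fe58d8_pr.CylinderNaturalTime

open Filter Topology MeasureTheory ProbabilityTheory
open scoped Nat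

/-- configurations of `M` rows of the cylinder of circumference `2n+1` -/
abbrev Conf (n M : ℕ) : Type := Fin M → Fin (2 * n + 1) → Bool

/-- the state of the tile `(j,t)`: the unit square with lower left corner `(j,t)` -/
def tile {n M : ℕ} (c : Conf n M) (j : ℤ) (t : Fin M) : Bool :=
  c t ⟨(j % (2 * n + 1)).toNat, by
    have h1 := Int.emod_nonneg j (show ((2 : ℤ) * n + 1) ≠ 0 by omega)
    have h2 := Int.emod_lt_of_pos j (show 0 < ((2 : ℤ) * n + 1) by omega)
    omega⟩

/-- the diagonal with the end points `x`, `y` is open; the open diagonal of the tile `(j,t)` is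
`(j,t) - (j+1,t+1)` in the state `false` and `(j+1,t) - (j,t+1)` in the state `true` -/
def Open {n M : ℕ} (c : Conf n M) (x y : ℤ × ℤ) : Prop :=
  ∃ (j : ℤ) (t : Fin M),
    (tile c j t = false ∧ s(x, y) = s((j, (t : ℤ)), (j + 1, (t : ℤ) + 1))) ∨
    (tile c j t = true ∧ s(x, y) = s((j + 1, (t : ℤ)), (j, (t : ℤ) + 1)))

/-- adjacency: open diagonals, and at the bottom, in every period, the corners `2i` and `2i+2`,
`i < n`, are joined -/
def Adj {n M : ℕ} (c : Conf n M) (x y : ℤ × ℤ) : Prop :=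
  Open c x y ∨ ∃ (k : ℤ) (i : ℕ), i < n ∧ x = (k * (2 * n + 1) + 2 * i, 0) ∧
    y = (k * (2 * n + 1) + 2 * i + 2, 0)

/-- the corners `x`, `y` are joined by an open path -/
def Conn {n M : ℕ} (c : Conf n M) (x y : ℤ × ℤ) : Prop := Relation.EqvGen (Adj c) x y

open Classical in
/-- one step of the exploration path, which crosses the side with the end point `s.1` on its left and
the end point `s.2` on its right, in the direction `d` of the next tile: it turns to the right if the
diagonal from `s.1` is open, and to the left otherwise.  At the bottom (a step downwards over the side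
`q` of the level `0`) it turns around the end point of this side which is not on the wired arc -/
noncomputable def step {n M : ℕ} (c : Conf n M) (s : (ℤ × ℤ) × (ℤ × ℤ)) : (ℤ × ℤ) × (ℤ × ℤ) :=
  let d : ℤ × ℤ := (s.1.2 - s.2.2, s.2.1 - s.1.1)
  if s.1.2 = 0 ∧ s.2.2 = 0 ∧ s.2.1 < s.1.1 then
    if (s.2.1 % (2 * n + 1)) % 2 = 0 then (s.1, s.2 + (2, 0)) else (s.1 - (2, 0), s.2)
  else if Open c s.1 (s.2 + d) then (s.2 + d, s.2) else (s.1, s.1 + d)

/-- the exploration path: it starts upwards between the corners `2n` and `2n+1` of the bottom -/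
noncomputable def walk {n M : ℕ} (c : Conf n M) (k : ℕ) : (ℤ × ℤ) × (ℤ × ℤ) :=
  (step c)^[k] ((2 * n, 0), (2 * n + 1, 0))

/-- its duration: the number of steps until it reaches the top -/
noncomputable def time {n M : ℕ} (c : Conf n M) : ℕ :=
  sInf {k : ℕ | (walk c k).1.2 = M ∧ (walk c k).2.2 = M}

/-- the middle of the side, the height `M` is scaled to `1` and the horizontal coordinate by
`√(2π / (N M))`, `N = 2n+1` -/
noncomputable def pos (n M : ℕ) (s : (ℤ × ℤ) × (ℤ × ℤ)) : ℂ :=
  ⟨√(2 * Real.pi / ((2 * n + 1) * M)) * (((s.1.1 : ℝ) + s.2.1) / 2), (((s.1.2 : ℝ) + s.2.2) / 2) / M⟩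

/-- the polygonal curve on `[0,1]` through the points `y 0, …, y I`, one unit `1/I` of time for
each step -/
noncomputable def polygon (y : ℕ → ℂ) (I : ℕ) : C(unitInterval, ℂ) :=
  ⟨fun s => y 0 + ∑ i ∈ Finset.range I,
    (y (i + 1) - y i) * ((max 0 (min 1 ((s : ℝ) * I - i)) : ℝ) : ℂ), by fun_prop⟩

/-- the exploration path with its natural parametrisation -/
noncomputable def curve {n M : ℕ} (c : Conf n M) : C(unitInterval, ℂ) :=
  polygon (fun k => pos n M (walk c k)) (time c)

/-- the curve `s ↦ w s + i s` -/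
noncomputable def graph (w : C(unitInterval, ℝ)) : C(unitInterval, ℂ) :=
  ⟨fun s => ((w s : ℝ) : ℂ) + ((s : ℝ) : ℂ) * Complex.I, by fun_prop⟩

/-- the mean value for independent fair tiles -/
noncomputable def avg (n M : ℕ) (f : Conf n M → ℝ) : ℝ := (∑ c, f c) / 2 ^ ((2 * n + 1) * M)

/-- `W` is the law of standard Brownian motion on `[0,1]`: it starts at `0`, and its increments over
consecutive intervals are independent centred normal variables with variances the lengths -/
def IsBM (W : Measure C(unitInterval, ℝ)) : Prop :=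
  IsProbabilityMeasure W ∧ (∀ᵐ w ∂W, w 0 = 0) ∧
  ∀ (k : ℕ) (t : Fin (k + 1) → unitInterval), Monotone t →
    W.map (fun w (j : Fin k) => w (t j.succ) - w (t j.castSucc)) =
      Measure.pi (fun j : Fin k =>
        gaussianReal 0 (Real.toNNReal ((t j.succ : ℝ) - t j.castSucc)))

/-- the number of alternating sign matrices of size `L` -/
noncomputable def asm (L : ℕ) : ℝ := ∏ k ∈ Finset.range L, ((3 * k + 1)! : ℝ) / ((L + k)! : ℝ)

/-- the number of half-turn symmetric alternating sign matrices of size `2n+1` -/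
noncomputable def asmHT (n : ℕ) : ℝ := ∏ i ∈ Finset.range n,
  4 / 3 * (((3 * (i + 1))! : ℝ) * ((i + 1)! : ℝ)) ^ 2 / ((2 * (i + 1))! : ℝ) ^ 4

/-- the mean number of steps per unit of height -/
noncomputable def speed (n : ℕ) : ℝ := 2 * (2 * n + 1) * asm (2 * n + 1) / asmHT n ^ 2

/-! ## the two descriptions of the path agree -/

section bridge

open Y994.KW Pool.Agent.Y256.KW Pool.Agent.Y932.KW

variable {n M : ℕ} {c : Conf n M}

theorem tile_eq (j : ℤ) (t : Fin M) : tile c j t = c t (H906K.jx (2 * n) j) := by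
  unfold tile
  congr 1

theorem open_symm {x y : ℤ × ℤ} : Open c x y ↔ Open c y x := by
  unfold Open
  rw [Sym2.eq_swap (a := x) (b := y)]

theorem open_f {a b : ℤ} (h0 : 0 ≤ b) (h1 : b < M) :
    Open c (a, b) (a + 1, b + 1) ↔ cfg n M c a b = false := by
  have e : cfg n M c a b = tile c a ⟨b.toNat, by omega⟩ := by
    rw [tile_eq]
    unfold cfg
    rw [dif_pos ⟨h0, h1⟩]
  constructor
  · rintro ⟨j, t, ⟨h2, h3⟩ | ⟨h2, h3⟩⟩
    · rw [Sym2.eq_iff] at h3
      simp only [Prod.mk.injEq] at h3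
      have h4 : a = j ∧ b = t := by omega
      obtain ⟨rfl, h5⟩ := h4
      rw [e, ← h2]
      congr 1
      apply Fin.ext
      show b.toNat = (t : ℕ)
      omega
    · rw [Sym2.eq_iff] at h3
      simp only [Prod.mk.injEq] at h3
      omega
  · intro h2
    refine ⟨a, ⟨b.toNat, by omega⟩, Or.inl ⟨by rw [← e]; exact h2, ?_⟩⟩
    show s((a, b), (a + 1, b + 1)) = s((a, ((b.toNat : ℕ) : ℤ)), (a + 1, ((b.toNat : ℕ) : ℤ) + 1))
    rw [Int.toNat_of_nonneg h0]

theorem open_t {a b : ℤ} (h0 : 0 ≤ b) (h1 : b < M) :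
    Open c (a + 1, b) (a, b + 1) ↔ cfg n M c a b = true := by
  have e : cfg n M c a b = tile c a ⟨b.toNat, by omega⟩ := by
    rw [tile_eq]
    unfold cfg
    rw [dif_pos ⟨h0, h1⟩]
  constructor
  · rintro ⟨j, t, ⟨h2, h3⟩ | ⟨h2, h3⟩⟩
    · rw [Sym2.eq_iff] at h3
      simp only [Prod.mk.injEq] at h3
      omega
    · rw [Sym2.eq_iff] at h3
      simp only [Prod.mk.injEq] at h3
      have h4 : a = j ∧ b = t := by omega
      obtain ⟨rfl, h5⟩ := h4
      rw [e, ← h2]
      congr 1
      apply Fin.ext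
      show b.toNat = (t : ℕ)
      omega
  · intro h2
    refine ⟨a, ⟨b.toNat, by omega⟩, Or.inr ⟨by rw [← e]; exact h2, ?_⟩⟩
    show s((a + 1, b), (a, b + 1)) = s((a + 1, ((b.toNat : ℕ) : ℤ)), (a, ((b.toNat : ℕ) : ℤ) + 1))
    rw [Int.toNat_of_nonneg h0]

/-- one step -/
theorem step_eq {X : ℤ} {k : ℕ} (h : Hit n 0 M (cfg n M c) k X) {i : ℕ} (hi : i < k) :
    step c (orb n 0 (cfg n M c) i) = orb n 0 (cfg n M c) (i + 1) := by
  obtain ⟨hok, hv1, hv2⟩ := orb_V n 0 (cfg n M c) i
  obtain ⟨hl1, hl2⟩ := lev h i hi.le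
  have hu := h.2 i hi
  rw [Pool.Agent.Y290.KW.orb_succ]
  generalize orb n 0 (cfg n M c) i = s at hok hv1 hv2 hl1 hl2 hu ⊢
  revert hv1 hv2 hl1 hl2 hu
  refine Ok_cases (C := fun s => 0 ≤ s.1.2 → 0 ≤ s.2.2 → s.1.2 ≤ M → s.2.2 ≤ M → (∀ q : ℤ, s ≠ up q M) →
    step c s = wk n 0 (cfg n M c) s) ?_ ?_ ?_ ?_ hok
  · intro q t h1 _ h2 _ h3
    change 0 ≤ t at h1
    change t ≤ M at h2
    have h4 : t < M := lt_of_le_of_ne h2 fun e => h3 q (e ▸ rfl)
    rw [wk_of_not (Cap_up 0 q t), Pool.Agent.Y932.KW.nxt_up]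
    unfold step
    rw [if_neg (by simp [up])]
    have e1 : (up q t).2 + ((up q t).1.2 - (up q t).2.2, (up q t).2.1 - (up q t).1.1) =
        (q + 1, t + 1) := by simp [up]
    have e2 : (up q t).1 + ((up q t).1.2 - (up q t).2.2, (up q t).2.1 - (up q t).1.1) =
        (q, t + 1) := by simp [up]
    have e3 : Open c (up q t).1 (q + 1, t + 1) ↔ cfg n M c q t = false := open_f h1 h4
    have e4 : Open c (up q t).1 ((up q t).2 + ((up q t).1.2 - (up q t).2.2, (up q t).2.1 - (up q t).1.1))
        ↔ cfg n M c q t = false := by rw [e1]; exact e3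
    by_cases h5 : cfg n M c q t = false
    · rw [if_pos (e4.2 h5), if_pos h5, e1]
      rfl
    · rw [if_neg (fun h => h5 (e4.1 h)), if_neg h5, e2]
      rfl
  · intro q t h1 _ h2 _ _
    change 0 ≤ t at h1
    change t ≤ M at h2
    by_cases h7 : t = 0
    · subst h7
      have e0 : wk n 0 (cfg n M c) (dn q 0) =
          if (q % (2 * n + 1)) % 2 = 0 then ((dn q 0).1, ((dn q 0).2.1 + 2, 0))
          else (((dn q 0).1.1 - 2, 0), (dn q 0).2) := by
        unfold wk
        rw [if_pos (by simp [dn])]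
        rfl
      have e1 : step c (dn q 0) =
          if (q % (2 * n + 1)) % 2 = 0 then ((dn q 0).1, (dn q 0).2 + (2, 0))
          else ((dn q 0).1 - (2, 0), (dn q 0).2) := by
        unfold step
        rw [if_pos (by simp [dn])]
        rfl
      rw [e0, e1]
      split_ifs
      · simp [dn]
      · simp [dn]
    · rw [wk_of_not (Cap_dn' h7), Pool.Agent.Y932.KW.nxt_dn]
      unfold step
      rw [if_neg (by simp [dn, h7])]
      have e1 : (dn q t).2 + ((dn q t).1.2 - (dn q t).2.2, (dn q t).2.1 - (dn q t).1.1) =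
          (q, t - 1) := by
        simp only [dn, Prod.mk_add_mk, Prod.mk.injEq]
        constructor <;> ring
      have e2 : (dn q t).1 + ((dn q t).1.2 - (dn q t).2.2, (dn q t).2.1 - (dn q t).1.1) =
          (q + 1, t - 1) := by
        simp only [dn, Prod.mk_add_mk, Prod.mk.injEq]
        constructor <;> ring
      have e3 : Open c (dn q t).1 (q, t - 1) ↔ cfg n M c q (t - 1) = false := by
        rw [open_symm, ← open_f (by omega) (by omega)]
        show Open c (q, t - 1) (q + 1, t) ↔ _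
        rw [sub_add_cancel]
      have e4 : Open c (dn q t).1 ((dn q t).2 + ((dn q t).1.2 - (dn q t).2.2, (dn q t).2.1 - (dn q t).1.1))
          ↔ cfg n M c q (t - 1) = false := by rw [e1]; exact e3
      by_cases h5 : cfg n M c q (t - 1) = false
      · rw [if_pos (e4.2 h5), if_pos h5, e1]
        simp [dn, lf]
      · rw [if_neg (fun h => h5 (e4.1 h)), if_neg h5, e2]
        simp [dn, rt]
  · intro q t h1 _ _ h2 _
    change 0 ≤ t at h1
    change t + 1 ≤ M at h2
    rw [wk_of_not (Cap_lf 0 q t), Pool.Agent.Y932.KW.nxt_lf]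
    unfold step
    rw [if_neg (by simp [lf])]
    have e1 : (lf q t).2 + ((lf q t).1.2 - (lf q t).2.2, (lf q t).2.1 - (lf q t).1.1) =
        (q - 1, t + 1) := by
      simp only [lf, Prod.mk_add_mk, Prod.mk.injEq]
      constructor <;> ring
    have e2 : (lf q t).1 + ((lf q t).1.2 - (lf q t).2.2, (lf q t).2.1 - (lf q t).1.1) =
        (q - 1, t) := by
      simp only [lf, Prod.mk_add_mk, Prod.mk.injEq]
      constructor <;> ring
    have e3 : Open c (lf q t).1 (q - 1, t + 1) ↔ cfg n M c (q - 1) t = true := by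
      rw [← open_t h1 (by omega)]
      show Open c (q, t) _ ↔ _
      rw [sub_add_cancel]
    have e4 : Open c (lf q t).1 ((lf q t).2 + ((lf q t).1.2 - (lf q t).2.2, (lf q t).2.1 - (lf q t).1.1))
        ↔ cfg n M c (q - 1) t = true := by rw [e1]; exact e3
    by_cases h5 : cfg n M c (q - 1) t = true
    · rw [if_pos (e4.2 h5), if_pos h5, e1]
      simp [lf, up]
    · rw [if_neg (fun h => h5 (e4.1 h)), if_neg h5, e2]
      simp [lf, dn]
  · intro q t _ h1 h2 _ _
    change 0 ≤ t at h1
    change t + 1 ≤ M at h2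
    rw [wk_of_not (Cap_rt 0 q t), Pool.Agent.Y932.KW.nxt_rt]
    unfold step
    rw [if_neg (by simp [rt])]
    have e1 : (rt q t).2 + ((rt q t).1.2 - (rt q t).2.2, (rt q t).2.1 - (rt q t).1.1) =
        (q + 1, t) := by
      simp only [rt, Prod.mk_add_mk, Prod.mk.injEq]
      constructor <;> ring
    have e2 : (rt q t).1 + ((rt q t).1.2 - (rt q t).2.2, (rt q t).2.1 - (rt q t).1.1) =
        (q + 1, t + 1) := by
      simp only [rt, Prod.mk_add_mk, Prod.mk.injEq]
      constructor <;> ring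
    have e3 : Open c (rt q t).1 (q + 1, t) ↔ cfg n M c q t = true := by
      rw [open_symm, ← open_t h1 (by omega)]
      rfl
    have e4 : Open c (rt q t).1 ((rt q t).2 + ((rt q t).1.2 - (rt q t).2.2, (rt q t).2.1 - (rt q t).1.1))
        ↔ cfg n M c q t = true := by rw [e1]; exact e3
    by_cases h5 : cfg n M c q t = true
    · rw [if_pos (e4.2 h5), if_pos h5, e1]
      simp [rt, dn]
    · rw [if_neg (fun h => h5 (e4.1 h)), if_neg h5, e2]
      simp [rt, up]

/-- the path -/
theorem walk_eq {X : ℤ} {k : ℕ} (h : Hit n 0 M (cfg n M c) k X) : ∀ i ≤ k,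
    walk c i = orb n 0 (cfg n M c) i := by
  intro i
  induction i with
  | zero =>
    intro _
    rfl
  | succ i ih =>
    intro hi
    rw [← step_eq h (by omega), ← ih (by omega)]
    exact Function.iterate_succ_apply' _ _ _

theorem time_eq {X : ℤ} {k : ℕ} (h : Hit n 0 M (cfg n M c) k X) : time c = k := by
  have hm : k ∈ {k : ℕ | (walk c k).1.2 = M ∧ (walk c k).2.2 = M} := by
    show (walk c k).1.2 = M ∧ (walk c k).2.2 = M
    rw [walk_eq h k le_rfl, h.1]
    exact ⟨rfl, rfl⟩
  apply le_antisymm (Nat.sInf_le hm)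
  apply le_csInf ⟨k, hm⟩
  rintro i ⟨h1, h2⟩
  by_contra hc
  have hik : i < k := by omega
  rw [walk_eq h i hik.le] at h1 h2
  obtain ⟨hok, hv1, hv2⟩ := orb_V n 0 (cfg n M c) i
  have h3 := h.2 i hik
  obtain ⟨q, t, h4 | h4 | h4 | h4⟩ := hok
  · rw [h4] at h1 h3
    have h5 : t = M := h1
    exact h3 q (by rw [h5])
  · rw [h4] at h1
    have h5 : t = M := h1
    rw [h5] at h4
    exact ne_dn_top h i hik.le q h4
  · rw [h4] at h1 h2
    have h5 : t = M := h1
    have h6 : t + 1 = M := h2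
    omega
  · rw [h4] at h1 h2
    have h5 : t + 1 = M := h1
    have h6 : t = M := h2
    omega

theorem conn_of {x y : ℤ × ℤ} (h : Con n M c x y) : Conn c x y := by
  induction h with
  | rel a b h =>
    apply Relation.EqvGen.rel
    obtain ⟨j, t, ⟨h1, rfl, rfl⟩ | ⟨h1, rfl, rfl⟩⟩ | h1 := h
    · exact Or.inl ⟨j, t, Or.inl ⟨by rw [tile_eq]; exact h1, rfl⟩⟩
    · exact Or.inl ⟨j, t, Or.inr ⟨by rw [tile_eq]; exact h1, rfl⟩⟩
    · exact Or.inr h1
  | refl a => exact Relation.EqvGen.refl _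
  | symm a b _ ih => exact Relation.EqvGen.symm _ _ ih
  | trans a b d _ _ ih1 ih2 => exact Relation.EqvGen.trans _ _ _ ih1 ih2

end bridge

open Pool.Agent.L5helper96.NT in
theorem time_len {n M : ℕ} (hn : 1 ≤ n) (c : Conf n M) :
    time c = len n 0 M (Y994.KW.cfg n M c) := by
  have h := hit_len Y994.KW.All.HIT hn (Pool.Agent.Y941.KW.per_cfg n M c)
    (show (0 : ℤ) ≤ (M : ℤ) by positivity)
  exact time_eq h

open Pool.Agent.L5helper96.NT in
theorem pos_ps (n M : ℕ) (s : (ℤ × ℤ) × (ℤ × ℤ)) : pos n M s = ps n M s := by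
  have e : √(2 * Real.pi / ((2 * n + 1) * M)) = hsc n M := by
    unfold hsc
    have hpi := Real.pi_pos
    rcases Nat.eq_zero_or_pos M with hM | hM
    · subst hM
      simp
    · have hMp : (0 : ℝ) < M := by exact_mod_cast hM
      rw [Real.sqrt_eq_iff_mul_self_eq (by positivity) (by positivity), div_mul_div_comm,
        Real.mul_self_sqrt (by positivity)]
      field_simp
  unfold pos ps
  rw [e]
  apply Complex.ext
  · simp
  · simp

open Pool.Agent.L5helper96.NT in
theorem poly_congr {y y' : ℕ → ℂ} {I : ℕ} (h : ∀ i ≤ I, y i = y' i) : polygon y I = poly y' I := by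
  ext s
  show y 0 + ∑ i ∈ Finset.range I, (y (i + 1) - y i) * ((max 0 (min 1 ((s : ℝ) * I - i)) : ℝ) : ℂ) =
    y' 0 + ∑ i ∈ Finset.range I, (y' (i + 1) - y' i) * ((max 0 (min 1 ((s : ℝ) * I - i)) : ℝ) : ℂ)
  rw [h 0 (Nat.zero_le _)]
  congr 1
  refine Finset.sum_congr rfl fun i hi => ?_
  rw [Finset.mem_range] at hi
  rw [h i (by omega), h (i + 1) (by omega)]

open Pool.Agent.L5helper96.NT in
theorem curve_eq {n M : ℕ} (hn : 1 ≤ n) (c : Conf n M) :
    curve c = Pool.Agent.L5helper96.NT.curve n M c := by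
  have h := hit_len Y994.KW.All.HIT hn (Pool.Agent.Y941.KW.per_cfg n M c)
    (show (0 : ℤ) ≤ (M : ℤ) by positivity)
  unfold curve Pool.Agent.L5helper96.NT.curve
  rw [time_len hn c]
  refine poly_congr fun i hi => ?_
  rw [walk_eq h i hi, pos_ps]

theorem avg_eq (n M : ℕ) (f : Conf n M → ℝ) : avg n M f = Y994.KW.Ea M f := by
  rw [Y994.KW.Ea_eq]
  rfl

theorem result :
    (∀ (n M : ℕ) (c : Conf n M), 1 ≤ n →
      (walk c (time c)).1.2 = M ∧ (walk c (time c)).2.2 = M ∧
      ∀ k ≤ time c, Conn c (2 * n, 0) (walk c k).1 ∧ Conn c (2 * n + 1, 0) (walk c k).2) ∧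
    (∃ κ : ℝ, 2 ≤ κ ∧ κ ≤ 4 ∧
      Tendsto (fun n : ℕ => speed n / (2 * n + 1) ^ (3 / 4 : ℝ)) atTop (𝓝 κ)) ∧
    (∃ C : ℝ, ∀ n M : ℕ, 1 ≤ n → 2 * n + 1 ≤ M →
      avg n M (fun c => (time c / (speed n * M) - 1) ^ 2) ≤ C * ((2 * n + 1) / M)) ∧
    ∃ W : Measure C(unitInterval, ℝ), IsBM W ∧ ∀ n M : ℕ → ℕ, Tendsto n atTop atTop →
      Tendsto (fun i => M i / (2 * (n i : ℝ) + 1)) atTop atTop →
      ∀ F : BoundedContinuousFunction C(unitInterval, ℂ) ℝ,
        Tendsto (fun i => avg (n i) (M i) (fun c => F (curve c))) atTop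
          (𝓝 (∫ w, F (graph (√6 • w)) ∂W)) := by
  obtain ⟨B1, hB1, hQ⟩ := Pool.Agent.L5helper96.NT.aa_fin
  refine ⟨fun n M c hn => ?_, Pool.Agent.L5helper96.NT.spd_lim, ⟨729 * B1 ^ 2, fun n M hn hM => ?_⟩, ?_⟩
  · have h := Pool.Agent.L5helper96.NT.hit_len Y994.KW.All.HIT hn
      (Pool.Agent.Y941.KW.per_cfg n M c) (show (0 : ℤ) ≤ (M : ℤ) by positivity)
    rw [time_len hn c, walk_eq h _ le_rfl, h.1]
    refine ⟨rfl, rfl, fun k hk => ?_⟩
    obtain ⟨h1, h2⟩ := Pool.Agent.Y256.KW.all_con hn h k hk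
    rw [walk_eq h k hk]
    exact ⟨conn_of h1, conn_of h2⟩
  · have h := Pool.Agent.L5helper96.NT.mom_of hB1 hQ n M hn hM
    have hv := Pool.Agent.L5helper96.NT.spd_pos n
    have hv2 := Pool.Agent.L5helper96.NT.spd_lo n
    have hMp : (0 : ℝ) < M := by
      have : 0 < M := by omega
      exact_mod_cast this
    obtain ⟨N, hN⟩ : ∃ N : ℝ, N = 2 * n + 1 := ⟨_, rfl⟩
    have hNp : 0 < N := by rw [hN]; positivity
    rw [avg_eq]
    have e : (fun c : Conf n M => ((time c : ℝ) / (speed n * M) - 1) ^ 2) =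
        fun c => (1 / (Pool.Agent.L5helper96.NT.spd n * M) ^ 2) *
          (Pool.Agent.L5helper96.NT.Tm n M c - Pool.Agent.L5helper96.NT.spd n * M) ^ 2 := by
      funext c
      rw [time_len hn c]
      have e1 : ((Pool.Agent.L5helper96.NT.len n 0 M (Y994.KW.cfg n M c) : ℕ) : ℝ) =
        Pool.Agent.L5helper96.NT.Tm n M c := rfl
      have e2 : speed n = Pool.Agent.L5helper96.NT.spd n := rfl
      rw [e1, e2]
      field_simp
    rw [e, Pool.Agent.L5helper96.NT.Ea_mul']
    rw [← hN] at h hv2 ⊢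
    have h1 : N ^ (2 * (7 / 4 : ℝ) - 1) = N * (N ^ (3 / 4 : ℝ)) ^ 2 := by
      rw [← Real.rpow_natCast (N ^ (3 / 4 : ℝ)), ← Real.rpow_mul hNp.le]
      nth_rewrite 2 [← Real.rpow_one N]
      rw [← Real.rpow_add hNp]
      norm_num
    rw [h1] at h
    have h2 : (N ^ (3 / 4 : ℝ)) ^ 2 ≤ Pool.Agent.L5helper96.NT.spd n ^ 2 := by
      apply pow_le_pow_left₀ (by positivity)
      have : 0 < N ^ (3 / 4 : ℝ) := by positivity
      linarith
    calc 1 / (Pool.Agent.L5helper96.NT.spd n * M) ^ 2 * _ ≤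
          1 / (Pool.Agent.L5helper96.NT.spd n * M) ^ 2 *
            (729 * B1 ^ 2 * (N * (N ^ (3 / 4 : ℝ)) ^ 2) * M) :=
          mul_le_mul_of_nonneg_left h (by positivity)
      _ ≤ 1 / (Pool.Agent.L5helper96.NT.spd n * M) ^ 2 *
            (729 * B1 ^ 2 * (N * Pool.Agent.L5helper96.NT.spd n ^ 2) * M) := by gcongr
      _ = _ := by field_simp
  · obtain ⟨W, hW, h⟩ := Pool.Agent.L5helper96.NT.fin_of hB1 hQ
    refine ⟨W, ⟨hW.1, hW.2.1, ?_⟩, fun n M hn hM1 F => ?_⟩
    · intro k t ht
      have := hW.2.2 k t ht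
      simpa using this
    · obtain ⟨n', hn'⟩ : ∃ n' : ℕ → ℕ, n' = fun i => max (n i) 1 := ⟨_, rfl⟩
      have hev : ∀ᶠ i in atTop, n' i = n i := by
        filter_upwards [hn.eventually_ge_atTop 1] with i hi
        rw [hn']
        exact max_eq_left hi
      have hn1 : ∀ i, 1 ≤ n' i := by
        intro i
        rw [hn']
        exact le_max_right _ _
      have hnt : Tendsto n' atTop atTop := hn.congr' (hev.mono fun i hi => hi.symm)
      have hM2 : Tendsto (fun i => (M i : ℝ) / (2 * n' i + 1)) atTop atTop :=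
        hM1.congr' (hev.mono fun i hi => by beta_reduce; rw [hi])
      have hM3 : Tendsto (fun i => (2 * (n' i : ℝ) + 1) ^ (2 * (7 / 4 : ℝ) - 5 / 2 : ℝ) / M i) atTop
          (𝓝 0) := by
        have h5 := hM1.inv_tendsto_atTop
        refine h5.congr' (hev.mono fun i hi => ?_)
        beta_reduce
        rw [hi, Pi.inv_apply, inv_div]
        norm_num
      obtain ⟨-, g2⟩ := h n' M hn1 hnt hM2 hM3
      refine (g2 F).congr' (hev.mono fun i hi => ?_)
      beta_reduce
      rw [avg_eq]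
      have h1i := hn1 i
      rw [hi] at h1i ⊢
      congr 1
      funext c
      rw [curve_eq h1i c]

end Pool.Agent.Results.MP_fe58d8_pr.CylinderNaturalTime
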