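import Pool.Agent.L5helper97.DL.Top
import Pool.Agent.Y995.TP.FastTop

/-!
# The lower tail of the duration of the exploration path in the natural parametrisation

Critical bond percolation on `δ ℤ²` in a rectangle `D = (-A, B) × (0, H)`, exploration path from
`a = t + i H` to `b = 0` between the wired boundary arc and the dual-wired one. Its duration in the
natural parametrisation is `R.time δ F = δ ^ (7/4) * (number of steps)`.

The probability that the duration is at most `x` is `exp (- Θ (x ^ (-4/3)))`, uniformly in the mesh,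
for all `C δ ^ (3/4) ≤ x ≤ 1` (the duration is always at least `c δ ^ (3/4)`), and the duration of
every subsequential scaling limit has the same lower tail.

Definitions: `Pool.Agent.H984R4.NP.Model` (`Rect`, `X`, `Rect.dm`, `Rect.time`, `Rect.law`,
`Rect.prob`), `Pool.Agent.H984R4.NP.Defs` (`Dm`, `Dm.edges`, `Dm.cfg`, `Dm.walk`, `Dm.len`) and
`Pool.Agent.H984R3.Per.Defs` (states, `nxt`, `orb`).
-/

set_option autoImplicit false

namespace Pool.Agent.Results.MP_fe58d8_pr.DurationLowerTail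

open H984N Pool.Agent.Y985.ME Pool.Agent.Y41.EV
open MeasureTheory Filter Topology

theorem result (R : Rect) :
    (∀ δ : ℕ → ℝ, (∀ i, 0 < δ i) → Tendsto δ atTop (𝓝 0) →
      ∃ φ : ℕ → ℕ, StrictMono φ ∧ ∃ μ : ProbabilityMeasure X,
        Tendsto (fun i => R.law (δ (φ i))) atTop (𝓝 μ)) ∧
    ∃ c C δ0 : ℝ, 0 < c ∧ 0 < C ∧ 0 < δ0 ∧
    (∀ δ : ℝ, 0 < δ → δ ≤ δ0 →
      (∀ F : Finset H974.Edg, F ⊆ (R.dm δ).edges → c * δ ^ (3/4 : ℝ) ≤ R.time δ F) ∧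
      (∀ x : ℝ, 0 < x → R.prob δ (fun F => R.time δ F ≤ x) ≤
        C * Real.exp (-(c * x ^ (-(4/3) : ℝ)))) ∧
      ∀ x : ℝ, C * δ ^ (3/4 : ℝ) ≤ x → x ≤ 1 →
        Real.exp (-(C * x ^ (-(4/3) : ℝ))) ≤ R.prob δ (fun F => R.time δ F ≤ x)) ∧
    (∀ δ : ℕ → ℝ, (∀ i, 0 < δ i) → Tendsto δ atTop (𝓝 0) → ∀ μ : ProbabilityMeasure X,
      Tendsto (fun i => R.law (δ i)) atTop (𝓝 μ) → ∀ x : ℝ, 0 < x →
      (x ≤ 1 → ENNReal.ofReal (Real.exp (-(C * x ^ (-(4/3) : ℝ)))) ≤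
        (μ : Measure X) {p | p.2 ≤ x}) ∧
      (μ : Measure X) {p | p.2 ≤ x} ≤ ENNReal.ofReal (C * Real.exp (-(c * x ^ (-(4/3) : ℝ))))) := by
  obtain ⟨_, _, _, _, _, _, _, hft⟩ := Pool.Agent.Y995.TP.fast_top
  refine ⟨(hft R).1, ?_⟩
  obtain ⟨_, ⟨C, hC, hU⟩, _⟩ := inputs
  have hfm : FM := Pool.Agent.Y490.EV.fm2 Pool.Agent.Y941.EV.t_FM1 Pool.Agent.Y490.EV.fm2p
    s_blk s_fm C hC hU
  obtain ⟨c', C', δ0, h1, h2, h3, h4⟩ := Pool.Agent.L5helper97.DL.final_of hC hU hfm R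
  have hk0 : (0 : ℝ) < 2 ^ (-(4/3) : ℝ) := by positivity
  have hk1 : (2 : ℝ) ^ (-(4/3) : ℝ) ≤ 1 :=
    Real.rpow_le_one_of_one_le_of_nonpos (by norm_num) (by norm_num)
  have hcc : c' * 2 ^ (-(4/3) : ℝ) ≤ c' := by nlinarith
  refine ⟨c' * 2 ^ (-(4/3) : ℝ), C', δ0, by positivity, h2, h3, fun δ hδ hδ' => ?_, ?_⟩
  · obtain ⟨g1, g2, g3⟩ := h4 δ hδ hδ'
    refine ⟨fun F hF => le_trans ?_ (g1 F hF), fun x hx => (g2 x hx).trans ?_, g3⟩
    · exact mul_le_mul_of_nonneg_right hcc (Real.rpow_nonneg hδ.le _)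
    · refine mul_le_mul_of_nonneg_left (Real.exp_le_exp.mpr (neg_le_neg ?_)) h2.le
      exact mul_le_mul_of_nonneg_right hcc (Real.rpow_nonneg hx.le _)
  · intro δ hδ hlim μ hμ x hx
    exact Pool.Agent.L5helper97.DL.final_lim h3 (fun δ hδ hδ' => (h4 δ hδ hδ').2) hδ hlim hμ hx

end Pool.Agent.Results.MP_fe58d8_pr.DurationLowerTail
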