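import Pool.Agent.L5helper98.XP.FinB

/-!
# Which fixed sets are visited by (several independent) exploration paths, and in which dimension

Critical bond percolation on `δ ℤ²` in a rectangle `D = (-A, B) × (0, H)`, with the counterclockwise
boundary arc from `a = t + i H` to `b = 0` wired and the other one dual-wired. The exploration path
is parametrised by its number of steps: `Rect.curve` is the piecewise linear curve on `[0, 1]` run
at constant speed, and `Rect.time` is the number of steps times `δ ^ (7/4)`; `Rect.law` is the law
of (curve, time). Let `k ≥ 1` and let `μ i` (`i < k`) be weak limits of the laws for `k` rectangles,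
which may differ, as do the sequences of meshes. Let `S` be a fixed `σ`-compact subset of the
intersection of the rectangles. For `k` independent curves with these laws: the essential supremum
of the dimension of the set of the points of `S` which all curves visit is `dimH S - k/4`, the one
of the dimension of the times at which a given curve is in this set is `4/7 (dimH S - k/4)`, this
set is not empty with positive probability if `dimH S > k/4`, and it is almost surely empty if
`dimH S < k/4`. (Differences in `[0, ∞]` are truncated at `0`.)

The proof of the lower bound: second moment method with Frostman weights on `S` for the events that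
all paths visit a disc of radius `r`, with the one-point estimate of the Green function of the
library (`H934G.st_gl`) and a two-point bound (`L98X.hit2`); the energy is kept in the limit, first
of the meshes and then of `r`.

Definitions: `Pool.Agent.H984R4.NP.Model` (`Rect`, `pos`, `clamp`, `pl`, `X`, `Rect.D`, `Rect.dm`,
`Rect.curve`, `Rect.time`, `Rect.law`), `Pool.Agent.H984R4.NP.Defs` (`Dm`, `Dm.edges`, `Dm.wir`,
`Dm.cfg`, `Dm.walk`, `Dm.len`) and `Pool.Agent.H984R3.Per.Defs` (states, `ae`, `mv`, `rt`, `nxt`,
`orb`).
-/

set_option autoImplicit false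

namespace Pool.Agent.Results.MP_fe58d8_pr.FixedSetsExact

open H984N MeasureTheory Filter Topology
open scoped ENNReal

theorem result {k : ℕ} (hk : 0 < k) (R : Fin k → Rect) (δ : Fin k → ℕ → ℝ)
    (hδ : ∀ i n, 0 < δ i n) (hlim : ∀ i, Tendsto (δ i) atTop (𝓝 0))
    (μ : Fin k → ProbabilityMeasure X)
    (hμ : ∀ i, Tendsto (fun n => (R i).law (δ i n)) atTop (𝓝 (μ i)))
    {S : Set ℂ} (hS : IsSigmaCompact S) (hSD : S ⊆ ⋂ i, (R i).D) :
    essSup (fun p => dimH (S ∩ ⋂ i, Set.range (p i).1)) (Measure.pi fun i => (μ i : Measure X)) =
      dimH S - k / 4 ∧
    (∀ j, essSup (fun p => dimH {s : unitInterval | (p j).1 s ∈ S ∩ ⋂ i, Set.range (p i).1})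
      (Measure.pi fun i => (μ i : Measure X)) = 4 / 7 * (dimH S - k / 4)) ∧
    ((k : ℝ≥0∞) / 4 < dimH S →
      0 < (Measure.pi fun i => (μ i : Measure X)) {p | (S ∩ ⋂ i, Set.range (p i).1).Nonempty}) ∧
    (dimH S < k / 4 →
      ∀ᵐ p ∂(Measure.pi fun i => (μ i : Measure X)), S ∩ ⋂ i, Set.range (p i).1 = ∅) :=
  L98X.finB hk R δ hδ hlim μ hμ hS hSD

end Pool.Agent.Results.MP_fe58d8_pr.FixedSetsExact
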