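import Pool.Agent.L5helper98.XP.FinA

/-!
# The common points of independent exploration paths

Critical bond percolation on `δ ℤ²` in a rectangle `D = (-A, B) × (0, H)`, with the counterclockwise
boundary arc from `a = t + i H` to `b = 0` wired and the other one dual-wired. The exploration path
is parametrised by its number of steps: `Rect.curve` is the piecewise linear curve on `[0, 1]` run
at constant speed, and `Rect.time` is the number of steps times `δ ^ (7/4)`; `Rect.law` is the law
of (curve, time). Let `k ≥ 1` and let `μ i` (`i < k`) be weak limits of the laws for `k` rectangles,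
which may differ, as do the sequences of meshes. For `k` independent curves with these laws, almost
surely, the set of the points of the intersection `W` of the rectangles which all curves visit has
Hausdorff dimension `2 - k/4` when `k ≤ 8`, also in every ball around the common end point `0`, the
set of times at which a given curve is in it has dimension `(8 - k)/7`, and for `k ≥ 9` no point of
`W` is visited by all curves. (Differences in `[0, ∞]` are truncated at `0`.)

The proof of the lower bound: second moment method for boxes of the macroscopic size `r` which are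
visited by all paths, with the two-arm bounds of the library (`H934F.t12`, a two-point bound for
boxes), for the product of the `k` configurations and at the scales `16 ^ j η`, which are
independent; the energy is then kept in the limit, first of the meshes and then of `r`.

Definitions: `Pool.Agent.H984R4.NP.Model` (`Rect`, `pos`, `clamp`, `pl`, `X`, `Rect.D`, `Rect.dm`,
`Rect.curve`, `Rect.time`, `Rect.law`), `Pool.Agent.H984R4.NP.Defs` (`Dm`, `Dm.edges`, `Dm.wir`,
`Dm.cfg`, `Dm.walk`, `Dm.len`) and `Pool.Agent.H984R3.Per.Defs` (states, `ae`, `mv`, `rt`, `nxt`,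
`orb`).
-/

set_option autoImplicit false

namespace Pool.Agent.Results.MP_fe58d8_pr.IndependentPaths

open H984N MeasureTheory Filter Topology
open scoped ENNReal

theorem result {k : ℕ} (hk : 0 < k) (R : Fin k → Rect) (δ : Fin k → ℕ → ℝ)
    (hδ : ∀ i n, 0 < δ i n) (hlim : ∀ i, Tendsto (δ i) atTop (𝓝 0)) :
    (∃ φ : ℕ → ℕ, StrictMono φ ∧ ∃ μ : Fin k → ProbabilityMeasure X,
      ∀ i, Tendsto (fun n => (R i).law (δ i (φ n))) atTop (𝓝 (μ i))) ∧
    (∀ μ : Fin k → ProbabilityMeasure X,
      (∀ i, Tendsto (fun n => (R i).law (δ i n)) atTop (𝓝 (μ i))) →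
      ∀ᵐ p ∂(Measure.pi fun i => (μ i : Measure X)),
        dimH ((⋂ i, Set.range (p i).1) ∩ ⋂ i, (R i).D) = (8 - k) / 4 ∧
        (∀ j, dimH {s : unitInterval | (p j).1 s ∈ (⋂ i, Set.range (p i).1) ∩ ⋂ i, (R i).D} =
          (8 - k) / 7) ∧
        (∀ ρ : ℝ, 0 < ρ → dimH (((⋂ i, Set.range (p i).1) ∩ ⋂ i, (R i).D) ∩ Metric.ball 0 ρ) =
          (8 - k) / 4) ∧
        (9 ≤ k → (⋂ i, Set.range (p i).1) ∩ (⋂ i, (R i).D) = ∅)) :=
  ⟨L98X.subseq R δ hδ hlim, fun μ hμ => L98X.finA hk R δ hδ hlim μ hμ⟩

end Pool.Agent.Results.MP_fe58d8_pr.IndependentPaths
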